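import Pool.Agent.H500.SV.Stm

/-!
# SV (helper500), part 9: the Frobenius elements of generic places are in `U'`
-/

set_option autoImplicit false
set_option linter.unusedSectionVars false

namespace Pool.Agent.H975.SV.E1

open Polynomial

section core

variable {k : Type} [Field k]

theorem aeval_diag {n : ℕ} (d : Fin n → k) (f : k[X]) :
    aeval (Matrix.diagonal d) f = Matrix.diagonal (fun i => f.eval (d i)) := by
  have h1 := aeval_algHom_apply (Matrix.diagonalAlgHom k : (Fin n → k) →ₐ[k] _) d f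
  have h2 : (Matrix.diagonalAlgHom k : (Fin n → k) →ₐ[k] _) d = Matrix.diagonal d := rfl
  rw [h2] at h1
  rw [h1]
  show Matrix.diagonal (aeval d f) = _
  congr 1
  funext i
  have h3 := aeval_algHom_apply (Pi.evalAlgHom k (fun _ : Fin n => k) i) d f
  have h4 : (Pi.evalAlgHom k (fun _ : Fin n => k) i) d = d i := rfl
  rw [h4] at h3
  have h5 : (Pi.evalAlgHom k (fun _ : Fin n => k) i) (aeval d f) = (aeval d f) i := rfl
  rw [← h5, ← h3, coe_aeval_eq_eval]

/-- a matrix with diagonal `M`-th power, whose eigenvalues are determined by their `M ^ 2`-th powers,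
is a polynomial in its `M ^ 2`-th power -/
theorem core {n M : ℕ} (T : Matrix (Fin n) (Fin n) k) (hM : (M : k) ≠ 0) (d : Fin n → k)
    (hd : ∀ i, d i ≠ 0) (hT : T ^ M = Matrix.diagonal d) (a : Fin n → k)
    (hc : T.charpoly = ∏ i, (X - Polynomial.C (a i)))
    (ha : ∀ i i', a i ^ (M ^ 2) = a i' ^ (M ^ 2) → a i = a i') :
    ∃ q : k[X], T = Matrix.diagonal (fun i => q.eval (d i ^ M)) := by
  classical
  -- the separable polynomial
  obtain ⟨S, hS⟩ : ∃ S : k[X], S = ∏ c ∈ Finset.univ.image d, (X ^ M - Polynomial.C c) := ⟨_, rfl⟩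
  have hSs : S.Separable := by
    rw [hS]
    refine separable_prod' (fun c _ c' _ hne => ?_) (fun c hc => ?_)
    · refine ⟨Polynomial.C (c' - c)⁻¹, -Polynomial.C (c' - c)⁻¹, ?_⟩
      have h1 : (Polynomial.C (c' - c)⁻¹ : k[X]) * Polynomial.C (c' - c) = 1 := by
        rw [← C_mul, inv_mul_cancel₀ (sub_ne_zero.2 hne.symm), C_1]
      calc (Polynomial.C (c' - c)⁻¹ : k[X]) * (X ^ M - Polynomial.C c) +
            -Polynomial.C (c' - c)⁻¹ * (X ^ M - Polynomial.C c') =
            Polynomial.C (c' - c)⁻¹ * (Polynomial.C c' - Polynomial.C c) := by ring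
        _ = 1 := by rw [← C_sub, h1]
    · obtain ⟨i, -, rfl⟩ := Finset.mem_image.1 hc
      exact separable_X_pow_sub_C _ hM (hd i)
  have hST : aeval T S = 0 := by
    have h1 : S = (∏ c ∈ Finset.univ.image d, (X - Polynomial.C c)).comp (X ^ M) := by
      rw [hS, prod_comp]
      refine Finset.prod_congr rfl fun c _ => ?_
      simp
    rw [h1, aeval_comp, map_pow, aeval_X, hT, aeval_diag]
    have h2 : (fun i => (∏ c ∈ Finset.univ.image d, (X - Polynomial.C c)).eval (d i)) =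
        (0 : Fin n → k) := by
      funext i
      rw [eval_prod]
      exact Finset.prod_eq_zero (Finset.mem_image_of_mem d (Finset.mem_univ i)) (by simp)
    rw [h2]
    exact Matrix.diagonal_zero
  -- the polynomial with the simple roots
  obtain ⟨p, hp⟩ : ∃ p : k[X], p = ∏ c ∈ Finset.univ.image a, (X - Polynomial.C c) := ⟨_, rfl⟩
  have hcp : T.charpoly ∣ p ^ n := by
    rw [hc]
    have h1 : p ^ n = ∏ _i : Fin n, p := by simp
    rw [h1]
    refine Finset.prod_dvd_prod_of_dvd _ _ fun i _ => ?_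
    rw [hp]
    exact Finset.dvd_prod_of_mem _ (Finset.mem_image_of_mem a (Finset.mem_univ i))
  have hmp : minpoly k T ∣ p ^ n :=
    (minpoly.dvd k T (Matrix.aeval_self_charpoly T)).trans hcp
  have hmS : minpoly k T ∣ S := minpoly.dvd k T hST
  have hmsq : Squarefree (minpoly k T) := hSs.squarefree.squarefree_of_dvd hmS
  have hmp' : minpoly k T ∣ p := hmsq.isRadical n p hmp
  -- interpolation
  obtain ⟨q, hq⟩ : ∃ q : k[X], q = Lagrange.interpolate (Finset.univ.image a)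
      (fun c => c ^ (M ^ 2)) id := ⟨_, rfl⟩
  have hinj : Set.InjOn (fun c : k => c ^ (M ^ 2)) (Finset.univ.image a : Finset k) := by
    intro x hx y hy hxy
    obtain ⟨i, -, rfl⟩ := Finset.mem_image.1 (Finset.mem_coe.1 hx)
    obtain ⟨i', -, rfl⟩ := Finset.mem_image.1 (Finset.mem_coe.1 hy)
    exact ha i i' hxy
  have hqv : ∀ i, q.eval (a i ^ (M ^ 2)) = a i := by
    intro i
    rw [hq]
    exact Lagrange.eval_interpolate_at_node id hinj (Finset.mem_image_of_mem a (Finset.mem_univ i))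
  have hpd : p ∣ q.comp (X ^ (M ^ 2)) - X := by
    rw [hp]
    refine Finset.prod_dvd_of_coprime ?_ ?_
    · intro c _ c' _ hne
      exact isCoprime_X_sub_C_of_isUnit_sub (sub_ne_zero.2 hne).isUnit
    · intro c hc
      obtain ⟨i, -, rfl⟩ := Finset.mem_image.1 hc
      rw [dvd_iff_isRoot, IsRoot.def, eval_sub, eval_comp, eval_pow, eval_X, hqv, sub_self]
  have h0 : aeval T (q.comp (X ^ (M ^ 2)) - X) = 0 := by
    obtain ⟨r, hr⟩ := hmp'.trans hpd
    rw [hr, map_mul, minpoly.aeval, zero_mul]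
  refine ⟨q, ?_⟩
  rw [map_sub, aeval_comp, map_pow, aeval_X, sub_eq_zero] at h0
  have h1 : T ^ (M ^ 2) = Matrix.diagonal (fun i => d i ^ M) := by
    rw [pow_two, pow_mul, hT, Matrix.diagonal_pow]
    rfl
  rw [h1, aeval_diag] at h0
  exact h0.symm

end core


open NumberField IsDedekindDomain Filter Topology Polynomial
open Pool.Agent.W401.Cheb (GK IsFrob IsInert)
open Pool.Agent.H500.HC (QBar ZBar jz)
open Pool.Agent.H500.R2 (UnrOut)
open Pool.Agent.H500.SV

section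

variable {K E : Type} [Field K] [NumberField K] [Field E] [NumberField E]

/-- the residue characteristic -/
theorem exists_char (lam : HeightOneSpectrum (𝓞 E)) : ∃ l f : ℕ, l.Prime ∧
    (l : 𝓞 E) ∈ lam.asIdeal ∧ 0 < f ∧ Ideal.absNorm lam.asIdeal = l ^ f := by
  classical
  have hmax := lam.isMaximal
  let _ : Field (𝓞 E ⧸ lam.asIdeal) := Ideal.Quotient.field lam.asIdeal
  have hfin : Finite (𝓞 E ⧸ lam.asIdeal) := Ideal.finiteQuotientOfFreeOfNeBot _ lam.ne_bot
  let _ : Fintype (𝓞 E ⧸ lam.asIdeal) := Fintype.ofFinite _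
  obtain ⟨l, hl⟩ := CharP.exists (𝓞 E ⧸ lam.asIdeal)
  obtain ⟨f, hlp, hcard⟩ := FiniteField.card (𝓞 E ⧸ lam.asIdeal) l
  refine ⟨l, f, hlp, ?_, f.pos, ?_⟩
  · rw [← Ideal.Quotient.eq_zero_iff_mem, map_natCast]
    exact CharP.cast_eq_zero _ l
  · rw [Ideal.absNorm_apply, Submodule.cardQuot_apply, Nat.card_eq_fintype_card]
    exact hcard

/-- two places of different fields with the same residue characteristic -/
theorem norm_mem_of (lam : HeightOneSpectrum (𝓞 E)) (v : HeightOneSpectrum (𝓞 K))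
    (h : ((Ideal.absNorm lam.asIdeal : ℕ) : 𝓞 K) ∈ v.asIdeal) :
    ((Ideal.absNorm v.asIdeal : ℕ) : 𝓞 E) ∈ lam.asIdeal := by
  obtain ⟨l, f, hl, hlm, hf, hn⟩ := exists_char lam
  obtain ⟨l', f', hl', hlm', hf', hn'⟩ := exists_char v
  have h1 : (l : 𝓞 K) ∈ v.asIdeal := by
    rw [hn, Nat.cast_pow] at h
    exact v.isPrime.mem_of_pow_mem _ h
  have h2 : l = l' := Pool.Agent.H500.HC.prime_eq hl hl' h1 hlm'
  rw [hn', ← h2, Nat.cast_pow]
  exact Ideal.pow_mem_of_mem _ hlm _ hf'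

variable {j : E →+* QBar} {N n B : ℕ} {P : HeightOneSpectrum (𝓞 K) → (𝓞 E)[X]}
  {lam : HeightOneSpectrum (𝓞 E)}

theorem good (S : SD j N n B P lam) {M : ℕ} (α : HeightOneSpectrum (𝓞 K) → Fin n → ZBar)
    (hBM : B.factorial ∣ M) {v : HeightOneSpectrum (𝓞 K)} (hv : (N : 𝓞 K) ∉ v.asIdeal)
    (hP : (P v).map (jz j) = ∏ i, (X - Polynomial.C (α v i)))
    (hM : (M : S.k) ≠ 0) (hq : ((Ideal.absNorm v.asIdeal : ℕ) : S.k) ≠ 0)
    (hα : ∀ i i', α v i ≠ α v i' → S.ψ (α v i) ^ (M ^ 2) ≠ S.ψ (α v i') ^ (M ^ 2))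
    {σ : GK K} (hσ : IsFrob v σ) : S.Z M σ := by
  classical
  have hmem : ∀ x : 𝓞 E, x ∈ lam.asIdeal ↔ S.ψ (jz j x) = 0 := by
    intro x
    rw [← S.hker, RingHom.mem_ker]
    rfl
  have hlv : ((Ideal.absNorm lam.asIdeal : ℕ) : 𝓞 K) ∉ v.asIdeal := by
    intro h
    apply hq
    have h1 := (hmem _).1 (norm_mem_of lam v h)
    rwa [map_natCast, map_natCast] at h1
  have hchar := S.hfr v hv hlv σ hσ
  have hchar' : (S.ρ σ : Matrix (Fin n) (Fin n) S.k).charpoly =
      ∏ i, (X - Polynomial.C (S.ψ (α v i))) := by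
    rw [hchar, ← Polynomial.map_map, hP, Polynomial.map_prod]
    refine Finset.prod_congr rfl fun i _ => ?_
    rw [Polynomial.map_sub, Polynomial.map_X, Polynomial.map_C]
  -- the power in `U`
  have hUn := S.hUn
  have hUo : IsOpen (S.U : Set (GK K)) := Subgroup.isOpen_mono S.hUk S.hop
  have hfin : Finite (GK K ⧸ S.U) := Subgroup.quotient_finite_of_isOpen _ hUo
  have hi0 : S.U.index ≠ 0 := Subgroup.index_ne_zero_of_finite
  have hid : S.U.index ∣ M :=
    (Nat.dvd_factorial (Nat.pos_of_ne_zero hi0) S.hUi).trans hBM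
  have hσM : σ ^ M ∈ S.U := by
    obtain ⟨c, hc⟩ := hid
    rw [hc, pow_mul]
    exact S.U.pow_mem (S.U.pow_index_mem σ) c
  obtain ⟨D, hD⟩ : ∃ D : Matrix (Fin n) (Fin n) S.k, D = (S.ρ (σ ^ M) : Matrix (Fin n) (Fin n) S.k) :=
    ⟨_, rfl⟩
  have hDd : D.IsDiag := by rw [hD]; exact S.hdiag _ hσM
  have hDdiag : Matrix.diagonal D.diag = D := hDd.diagonal_diag
  have hT : (S.ρ σ : Matrix (Fin n) (Fin n) S.k) ^ M = Matrix.diagonal D.diag := by
    rw [hDdiag, hD, map_pow, Units.val_pow_eq_pow_val]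
  have hd0 : ∀ i, D.diag i ≠ 0 := by
    have h1 : D.det ≠ 0 := by
      rw [hD]
      exact ((Matrix.isUnit_iff_isUnit_det _).1 (S.ρ (σ ^ M)).isUnit).ne_zero
    rw [← hDdiag, Matrix.det_diagonal, Finset.prod_ne_zero_iff] at h1
    exact fun i => h1 i (Finset.mem_univ i)
  obtain ⟨q, hq⟩ := core (S.ρ σ : Matrix (Fin n) (Fin n) S.k) hM D.diag hd0 hT
    (fun i => S.ψ (α v i)) hchar' (fun i i' h => by
      by_contra hne
      exact hα i i' (fun h' => hne (by rw [h'])) h)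
  refine ⟨?_, fun i i' hrel => ?_⟩
  · rw [hq]
    exact Matrix.isDiag_diagonal _
  · have h1 := hrel _ hσM
    rw [← hD] at h1
    rw [hq, Matrix.diagonal_apply_eq, Matrix.diagonal_apply_eq, Matrix.diag_apply,
      Matrix.diag_apply, h1]

end

/-- **Part 9 (E1).** -/
theorem main : Pool.Agent.H500.SV.S_E1 := by
  classical
  intro K E _ _ _ _ j N n B M P α hM hBM v hv hP hNR
  obtain ⟨y, hy⟩ : ∃ y : ZBar, y = ∏ i, ∏ i', if α v i = α v i' then 1 else
      (α v i ^ (M ^ 2) - α v i' ^ (M ^ 2)) := ⟨_, rfl⟩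
  have hM2 : 0 < M ^ 2 := by positivity
  have hy0 : y ≠ 0 := by
    rw [hy]
    refine Finset.prod_ne_zero_iff.2 fun i _ => Finset.prod_ne_zero_iff.2 fun i' _ => ?_
    split_ifs with h
    · exact one_ne_zero
    · intro h0
      exact h (hNR i i' ⟨M ^ 2, hM2, sub_eq_zero.1 h0⟩)
  have hz : (M : ZBar) * ((Ideal.absNorm v.asIdeal : ℕ) : ZBar) * y ≠ 0 := by
    refine mul_ne_zero (mul_ne_zero ?_ ?_) hy0
    · exact_mod_cast hM.ne'
    · exact_mod_cast Pool.Agent.H500.HC.norm_ne_zero v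
  by_contra hinf
  refine hz (Pool.Agent.H500.HC.eq_zero_of_inf j hinf ?_)
  rintro lam ⟨S, σ, hσ, hZ⟩
  refine ⟨S.k, S.fk, S.ψ, S.hker, ?_⟩
  by_contra hψ
  rw [map_mul, map_mul, map_natCast, map_natCast] at hψ
  have h1 := left_ne_zero_of_mul (left_ne_zero_of_mul hψ)
  have h2 := right_ne_zero_of_mul (left_ne_zero_of_mul hψ)
  have h3 := right_ne_zero_of_mul hψ
  refine hZ (good S α hBM hv hP h1 h2 (fun i i' hne h => h3 ?_) hσ)
  rw [hy, map_prod]
  refine Finset.prod_eq_zero (Finset.mem_univ i) ?_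
  rw [map_prod]
  refine Finset.prod_eq_zero (Finset.mem_univ i') ?_
  rw [if_neg hne, map_sub, map_pow, map_pow, h, sub_self]

end Pool.Agent.H975.SV.E1
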